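import Pool.Agent.Helper96.GU.StF

set_option autoImplicit false

/-!
Project GF (MP_2c90c1_al), module PSH: pushing a path off a free edge.
-/

namespace Pool.Agent.Helper51.GF

open Pool.Agent.Helper96.UT hiding StTOP TopV TopE tht Bd VC EC
open Pool.Agent.Helper96.GU

private theorem Ns_le {α : Type} (L : Subgroup (FreeGroup α)) (Z : Cyc α) (hs : Z.s ∈ L) :
    Ns L Z ≤ L := by
  unfold Ns
  rw [Subgroup.closure_le]
  rintro x ⟨g, hg, rfl⟩
  exact L.mul_mem (L.mul_mem hg hs) (L.inv_mem hg)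

theorem tPSH : StKEY → StHPF → StPSH := by
  intro hKEY hHPF α r Z hr Ω Θ _ _ o ho v E C hOv hK u hu m hFr hMx
  have hs : Z.s ∈ Hp r Z := (hHPF α r Z hr).1
  have hn : 0 < Z.n := Z.pos
  obtain ⟨l, hl⟩ : ∃ l : ℕ, Z.n = l + 1 := ⟨Z.n - 1, by omega⟩
  have hlZ : (Z.n : ℤ) = l + 1 := by rw [hl]; push_cast; ring
  set y := Z.c m with hy
  set e0 := ed (act u (pre Z.c m)) y with he0
  set E' := E \ {e0} with hE'
  have hpm : pre Z.c (m + 1 - Z.n) = Z.s⁻¹ * pre Z.c (m + 1) := by
    have h := Z.pre_add (m + 1 - Z.n)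
    rw [sub_add_cancel] at h
    rw [h, inv_mul_cancel_left]
  have hum : act u (pre Z.c (m + 1 - Z.n)) = act u (pre Z.c (m + 1)) := by
    have h := act_pre_per (hK.fix u hu) (m + 1) (-1)
    have e : (m + 1 + -1 * (Z.n : ℤ)) = m + 1 - Z.n := by ring
    rwa [e] at h
  have hos : act o Z.s = o := (ho _).2 hs
  have hom : act o (pre Z.c (m + 1 - Z.n)) = act o (pre Z.c (m + 1)) := by
    have h := act_pre_per hos (m + 1) (-1)
    have e : (m + 1 + -1 * (Z.n : ℤ)) = m + 1 - Z.n := by ring
    rwa [e] at h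
  set R : FreeGroup α := (pre Z.c m)⁻¹ * pre Z.c (m + 1 - Z.n) with hR
  have hlong : InE E' (act u (pre Z.c (m + 1 - Z.n))) (seg Z.c (m + 1 - Z.n) l) := by
    rw [InE_seg]
    intro t ht
    refine ⟨hK.sub u hu ⟨m + 1 - Z.n + t, rfl⟩, ?_⟩
    intro hmem
    have hd := (hFr u hu (m + 1 - Z.n + t) hmem).1
    have e : m + 1 - (Z.n : ℤ) + (t : ℤ) - m = ((t + 1 : ℕ) : ℤ) - Z.n := by push_cast; ring
    rw [e] at hd
    have hd2 : (Z.n : ℤ) ∣ ((t + 1 : ℕ) : ℤ) := by
      have := dvd_add hd (dvd_refl (Z.n : ℤ))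
      rwa [sub_add_cancel] at this
    rw [Int.natCast_dvd_natCast] at hd2
    have := Nat.le_of_dvd (by omega) hd2
    omega
  have hlongo : InE (CE Z o) (act o (pre Z.c (m + 1 - Z.n))) (seg Z.c (m + 1 - Z.n) l) :=
    InE_cell Z o _ _
  have hmk : FreeGroup.mk (seg Z.c (m + 1 - Z.n) l) = R⁻¹ := by
    rw [mk_seg, hR, mul_inv_rev, inv_inv]
    congr 2
    rw [hlZ]
    ring
  have hend : ∀ {X : Type} [MulAction (FreeGroup α) X] (z : X),
      act (act z (pre Z.c (m + 1 - Z.n))) R⁻¹ = act z (pre Z.c m) := by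
    intro X _ z
    rw [← act_mul, hR]
    congr 1
    group
  have hend2 : ∀ {X : Type} [MulAction (FreeGroup α) X] (z : X),
      act (act z (pre Z.c m)) R = act z (pre Z.c (m + 1 - Z.n)) := by
    intro X _ z
    rw [← act_mul, hR, mul_inv_cancel_left]
  have hact : ∀ (z : Ω) (a b : FreeGroup α), act z (a * b) = act (act z a) b :=
    fun z a b => act_mul z a b
  intro q
  induction q using List.reverseRecOn with
  | nil =>
    intro _ _
    refine ⟨[], trivial, trivial, rfl, ?_⟩
    rw [mul_inv_cancel]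
    exact Subgroup.one_mem _
  | append_singleton q x ih =>
    intro hqE hqo
    have hqE' := hqE
    have hqo' := hqo
    rw [InE_append] at hqE hqo
    obtain ⟨q', h1, h2, h3, h4⟩ := ih hqE.1 hqo.1
    set g := FreeGroup.mk q with hg
    set g' := FreeGroup.mk q' with hg'
    have h4' : g * g'⁻¹ ∈ Hp r Z := Ns_le _ Z hs h4
    have h5 : act o g' = act o g := by
      have e1 : act o (g * g'⁻¹) = o := (ho _).2 h4'
      calc act o g' = act (act o (g * g'⁻¹)) g' := by rw [e1]
        _ = act o g := by rw [← act_mul, inv_mul_cancel_right]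
    have hx1 : FreeGroup.mk (q ++ [x]) = g * lt x := by rw [mk_append]; rfl
    by_cases hx : ed (act v g) x = e0
    · rcases hKEY α r Z hr Ω Θ o ho v E C hOv hK u hu m hMx q x hqE' hqo' hx with
        ⟨hxa, hva, hka⟩ | ⟨hxa, hva, hka⟩
      · have hoa : act o g = act o (pre Z.c m) := by
          have e1 : act o (g * (pre Z.c m)⁻¹) = o := (ho _).2 hka
          calc act o g = act (act o (g * (pre Z.c m)⁻¹)) (pre Z.c m) := by
                rw [← act_mul, inv_mul_cancel_right]
            _ = _ := by rw [e1]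
        have h6 := InE_invRev hlong
        rw [hmk, hend] at h6
        have h7 := InE_invRev hlongo
        rw [hmk, hend] at h7
        have hP : FreeGroup.mk (FreeGroup.invRev (seg Z.c (m + 1 - Z.n) l)) = R := by
          rw [mk_invRev, hmk, inv_inv]
        have hP2 : FreeGroup.mk (q' ++ FreeGroup.invRev (seg Z.c (m + 1 - Z.n) l)) = g' * R := by
          rw [mk_append, hP]
        refine ⟨q' ++ FreeGroup.invRev (seg Z.c (m + 1 - Z.n) l), ?_, ?_, ?_, ?_⟩
        · rw [InE_append]
          refine ⟨h1, ?_⟩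
          rw [← hg', h3, hva]
          exact h6
        · rw [InE_append]
          refine ⟨h2, ?_⟩
          rw [← hg', h5, hoa]
          exact h7
        · rw [hP2, hx1, hact v g' R, hact v g (lt x), h3, hva, hend2, hum, hxa, act_pre_succ]
        · rw [hP2, hx1]
          have e : g * lt x * (g' * R)⁻¹ =
              (g * (pre Z.c m)⁻¹ * Z.s * (g * (pre Z.c m)⁻¹)⁻¹) * (g * g'⁻¹) := by
            rw [hR, hpm, pre_succ, hxa]
            group
          rw [e]
          exact Subgroup.mul_mem _ (Subgroup.subset_closure ⟨_, hka, rfl⟩) h4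
      · have hoa : act o g = act o (pre Z.c (m + 1)) := by
          have e1 : act o (g * (pre Z.c (m + 1))⁻¹) = o := (ho _).2 hka
          calc act o g = act (act o (g * (pre Z.c (m + 1))⁻¹)) (pre Z.c (m + 1)) := by
                rw [← act_mul, inv_mul_cancel_right]
            _ = _ := by rw [e1]
        have hP2 : FreeGroup.mk (q' ++ seg Z.c (m + 1 - Z.n) l) = g' * R⁻¹ := by
          rw [mk_append, hmk]
        refine ⟨q' ++ seg Z.c (m + 1 - Z.n) l, ?_, ?_, ?_, ?_⟩
        · rw [InE_append]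
          refine ⟨h1, ?_⟩
          rw [← hg', h3, hva, ← hum]
          exact hlong
        · rw [InE_append]
          refine ⟨h2, ?_⟩
          rw [← hg', h5, hoa, ← hom]
          exact hlongo
        · rw [hP2, hx1, hact v g' R⁻¹, hact v g (lt x), h3, hva, ← hum, hend, hum, hxa, lt_bar,
            ← act_pre_succ]
          rw [act_inv_eq rfl]
        · rw [hP2, hx1]
          have e : g * lt x * (g' * R⁻¹)⁻¹ =
              (g * (pre Z.c (m + 1))⁻¹ * Z.s * (g * (pre Z.c (m + 1))⁻¹)⁻¹)⁻¹ * (g * g'⁻¹) := by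
            rw [hR, hpm, pre_succ, hxa, lt_bar]
            group
          rw [e]
          exact Subgroup.mul_mem _ (Subgroup.inv_mem _
            (Subgroup.subset_closure ⟨_, hka, rfl⟩)) h4
    · have hP2 : FreeGroup.mk (q' ++ [x]) = g' * lt x := by rw [mk_append]; rfl
      refine ⟨q' ++ [x], ?_, ?_, ?_, ?_⟩
      · rw [InE_append]
        refine ⟨h1, ?_⟩
        rw [← hg', h3]
        exact ⟨⟨hqE.2.1, hx⟩, trivial⟩
      · rw [InE_append]
        refine ⟨h2, ?_⟩
        rw [← hg', h5]
        exact hqo.2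
      · rw [hP2, hx1, hact v g' (lt x), hact v g (lt x), h3]
      · rw [hP2, hx1]
        have e : g * lt x * (g' * lt x)⁻¹ = g * g'⁻¹ := by group
        rw [e]
        exact h4

end Pool.Agent.Helper51.GF
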